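import Mathlib

set_option autoImplicit false

open Polynomial

namespace Pool.Agent.Results.MP_e68b86_nt.NoGoodStart

/-- The recursion `S 1 = s`, `S n = |S (n-1) - gcd (S (n-1), P n)|` for `n ≥ 2`
(the value at index `0` is not used). -/
noncomputable def S (P : ℤ[X]) (s : ℕ) : ℕ → ℕ
  | 0 => s
  | 1 => s
  | n + 2 =>
      Int.natAbs ((S P s (n + 1) : ℤ) - (Int.gcd (S P s (n + 1) : ℤ) (P.eval ((n + 2 : ℕ) : ℤ)) : ℤ))

/-- An integer is a positive rational prime. -/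
def PosPrime (a : ℤ) : Prop := 0 < a ∧ Prime a

/-- `s` is good for the family `Q`, with `P` the product of the `Q j`. -/
def Good {m : ℕ} (Q : Fin m → ℤ[X]) (s : ℕ) : Prop :=
  {n : ℕ | 1 ≤ n ∧ S (∏ j, Q j) s n = 0}.Infinite ∧
    ∀ n : ℕ, 2 ≤ n → S (∏ j, Q j) s n = 0 → ∀ j, PosPrime ((Q j).eval ((n + 1 : ℕ) : ℤ))

/-- There is an admissible family for which no positive starting value is good. -/
theorem result :
    ∃ (m : ℕ) (Q : Fin m → ℤ[X]), 1 ≤ m ∧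
      (∀ j, Irreducible (Q j) ∧ 0 < (Q j).natDegree) ∧
      {k : ℕ | 0 < k ∧ ∀ j, PosPrime ((Q j).eval (k : ℤ))}.Infinite ∧
      ∀ s : ℕ, 0 < s → ¬ Good Q s := by
  refine ⟨1, fun _ => X - C 2, le_rfl, fun _ => ⟨irreducible_X_sub_C 2, by rw [natDegree_X_sub_C]; norm_num⟩, ?_, ?_⟩
  · apply Set.infinite_of_forall_exists_gt
    intro a
    obtain ⟨p, hap, hp⟩ := Nat.exists_infinite_primes a
    refine ⟨p + 2, ⟨by omega, fun _ => ?_⟩, by omega⟩
    have : (X - C 2 : ℤ[X]).eval ((p + 2 : ℕ) : ℤ) = (p : ℤ) := by simp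
    rw [this]
    exact ⟨by exact_mod_cast hp.pos, Nat.prime_iff_prime_int.mp hp⟩
  · rintro s - ⟨-, h⟩
    have h2 : S (∏ _j : Fin 1, (X - C 2 : ℤ[X])) s 2 = 0 := by
      rw [S, S]; simp
    have h3 := (h 2 le_rfl h2 0).2
    have : (X - C 2 : ℤ[X]).eval ((2 + 1 : ℕ) : ℤ) = 1 := by simp
    rw [this] at h3
    exact not_prime_one h3

end Pool.Agent.Results.MP_e68b86_nt.NoGoodStart
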